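import Pool.Agent.Helper68.ES.St5

/-!
# Project ES, module ATL
-/

set_option autoImplicit false

open MeasureTheory Set Filter Topology
open scoped ENNReal RealInnerProductSpace

namespace Pool.Agent.Helper19.ES

open Pool.Agent.Helper68.ES Pool.Agent.Helper68.EP Pool.Agent.Helper20.RG
open Pool.Agent.Helper20.RL (RQ Rich BM Fml Hit)
open Pool.Agent.Helper68.LM (Pl BB Bd Av HL ft fm DQ)

theorem geom_le (N : ℕ) : ∑ κ ∈ Finset.Icc 1 N, ((2 : ℝ) ^ (-(κ : ℤ))) ≤ 1 := by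
  have h : ∑ κ ∈ Finset.Icc 1 N, ((2 : ℝ) ^ (-(κ : ℤ))) = 1 - (2 : ℝ) ^ (-(N : ℤ)) := by
    induction N with
    | zero => simp
    | succ n ih =>
      rw [Finset.sum_Icc_succ_top (by omega), ih]
      have e : (2 : ℝ) ^ (-((n : ℕ) : ℤ)) = 2 * (2 : ℝ) ^ (-((n + 1 : ℕ) : ℤ)) := by
        rw [show (-((n : ℕ) : ℤ)) = 1 + (-((n + 1 : ℕ) : ℤ)) by push_cast; ring,
          zpow_add₀ (by norm_num : (2 : ℝ) ≠ 0), zpow_one]
      rw [e]; ring
  rw [h]
  have : (0 : ℝ) < (2 : ℝ) ^ (-(N : ℤ)) := zpow_pos (by norm_num) _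
  linarith

theorem hATL (hDYS : StDYS) : Pool.Agent.Helper68.ES.StATL := by
  intro P
  obtain ⟨K', hK'1, hK'⟩ := hDYS P.p (P.hs.trans P.hsp)
  refine ⟨max 1 (4 * K' * P.A), le_max_left _ _, ?_⟩
  intro Δ e R Y β V q i θ hSy hV hcfg
  set K : ℝ := max 1 (4 * K' * P.A) with hK
  have hA : 0 ≤ P.A := P.hA
  have hKA : 0 ≤ K' * P.A := mul_nonneg (by linarith) hA
  set S : ℕ → ℝ := fun w => ∑ κ ∈ Finset.Icc 1 (q w),
      (2 : ℝ) ^ ((q w : ℤ) - 2 * κ) * Δ.ell θ (2 ^ (q w - κ)) ^ P.p with hS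
  have hF0 : ∀ w κ : ℕ, 0 ≤ (2 : ℝ) ^ ((q w : ℤ) - 2 * κ) * Δ.ell θ (2 ^ (q w - κ)) ^ P.p :=
    fun w κ => mul_nonneg (zpow_nonneg (by norm_num) _)
      (Real.rpow_nonneg (hSy.unit θ _).1 _)
  have hS0 : ∀ w, 0 ≤ S w := fun w => Finset.sum_nonneg fun κ _ => hF0 w κ
  have hT : ∑ w ∈ V, S w ≤ K' * P.A := by
    have e1 : ∑ w ∈ V, S w = ∑ w ∈ V, ∑ κ ∈ Finset.Icc 1 (V.sup q), if κ ≤ q w then
        (2 : ℝ) ^ ((q w : ℤ) - 2 * κ) * Δ.ell θ (2 ^ (q w - κ)) ^ P.p else 0 := by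
      refine Finset.sum_congr rfl fun w hw => ?_
      rw [← Finset.sum_filter]
      refine Finset.sum_congr ?_ fun _ _ => rfl
      ext κ
      have hqw : q w ≤ V.sup q := Finset.le_sup hw
      simp only [Finset.mem_Icc, Finset.mem_filter]
      constructor
      · rintro ⟨a, b⟩; exact ⟨⟨a, b.trans hqw⟩, b⟩
      · rintro ⟨⟨a, _⟩, b⟩; exact ⟨a, b⟩
    rw [e1, Finset.sum_comm]
    calc ∑ κ ∈ Finset.Icc 1 (V.sup q), ∑ w ∈ V, (if κ ≤ q w then
          (2 : ℝ) ^ ((q w : ℤ) - 2 * κ) * Δ.ell θ (2 ^ (q w - κ)) ^ P.p else 0)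
        ≤ ∑ κ ∈ Finset.Icc 1 (V.sup q), (2 : ℝ) ^ (-(κ : ℤ)) * (K' * P.A) := by
          refine Finset.sum_le_sum fun κ _ => ?_
          rw [← Finset.sum_filter]
          have e2 : ∀ w ∈ V.filter (fun w => κ ≤ q w),
              (2 : ℝ) ^ ((q w : ℤ) - 2 * κ) * Δ.ell θ (2 ^ (q w - κ)) ^ P.p =
              (2 : ℝ) ^ (-(κ : ℤ)) * ((2 : ℝ) ^ (q w - κ) * Δ.ell θ (2 ^ (q w - κ)) ^ P.p) := by
            intro w hw
            have hκ : κ ≤ q w := (Finset.mem_filter.1 hw).2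
            rw [← mul_assoc]
            congr 1
            rw [← zpow_natCast, ← zpow_add₀ (by norm_num : (2 : ℝ) ≠ 0)]
            congr 1
            push_cast [Nat.cast_sub hκ]
            ring
          rw [Finset.sum_congr rfl e2, ← Finset.mul_sum]
          refine mul_le_mul_of_nonneg_left ?_ (zpow_nonneg (by norm_num) _)
          refine hK' P Δ e R Y β (V.filter (fun w => κ ≤ q w)) q i θ κ rfl hSy ?_
          intro w hw
          rw [Finset.mem_filter] at hw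
          exact ⟨hw.2, hcfg w hw.1⟩
      _ = (∑ κ ∈ Finset.Icc 1 (V.sup q), (2 : ℝ) ^ (-(κ : ℤ))) * (K' * P.A) := by
          rw [Finset.sum_mul]
      _ ≤ 1 * (K' * P.A) := mul_le_mul_of_nonneg_right (geom_le _) hKA
      _ = K' * P.A := one_mul _
  have hVc : (0 : ℝ) < V.card := by exact_mod_cast hV.card_pos
  have hKpos : 0 < K := lt_of_lt_of_le one_pos (le_max_left _ _)
  have hK4 : 4 * (K' * P.A) ≤ K := by
    have := le_max_right 1 (4 * K' * P.A)
    rw [← hK] at this; linarith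
  have hbad : ((V.filter (fun w => ¬ S w ≤ K / (V.card : ℝ))).card : ℝ) * (K / V.card) ≤
      K / 4 := by
    calc ((V.filter (fun w => ¬ S w ≤ K / (V.card : ℝ))).card : ℝ) * (K / V.card)
        = ∑ w ∈ V.filter (fun w => ¬ S w ≤ K / (V.card : ℝ)), K / (V.card : ℝ) := by
          rw [Finset.sum_const, nsmul_eq_mul]
      _ ≤ ∑ w ∈ V.filter (fun w => ¬ S w ≤ K / (V.card : ℝ)), S w := by
          refine Finset.sum_le_sum fun w hw => ?_
          exact le_of_lt (not_le.1 (Finset.mem_filter.1 hw).2)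
      _ ≤ ∑ w ∈ V, S w :=
          Finset.sum_le_sum_of_subset_of_nonneg (Finset.filter_subset _ _) fun w _ _ => hS0 w
      _ ≤ K / 4 := by linarith
  have hbad2 : ((V.filter (fun w => ¬ S w ≤ K / (V.card : ℝ))).card : ℝ) ≤ V.card / 4 := by
    have e3 : ((V.filter (fun w => ¬ S w ≤ K / (V.card : ℝ))).card : ℝ) * (K / V.card) =
        ((V.filter (fun w => ¬ S w ≤ K / (V.card : ℝ))).card : ℝ) / V.card * K := by ring
    rw [e3] at hbad
    have e4 : ((V.filter (fun w => ¬ S w ≤ K / (V.card : ℝ))).card : ℝ) / V.card ≤ 1 / 4 := by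
      by_contra hcon
      have hcon' := not_le.1 hcon
      have := mul_lt_mul_of_pos_right hcon' hKpos
      linarith
    rw [div_le_iff₀ hVc] at e4
    linarith
  have hsum : (V.filter (fun w => S w ≤ K / (V.card : ℝ))).card +
      (V.filter (fun w => ¬ S w ≤ K / (V.card : ℝ))).card = V.card :=
    Finset.card_filter_add_card_filter_not _
  have hsumR : ((V.filter (fun w => S w ≤ K / (V.card : ℝ))).card : ℝ) +
      ((V.filter (fun w => ¬ S w ≤ K / (V.card : ℝ))).card : ℝ) = V.card := by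
    exact_mod_cast hsum
  show 3 / 4 * (V.card : ℝ) ≤ ((V.filter (fun w => S w ≤ K / (V.card : ℝ))).card : ℝ)
  linarith

end Pool.Agent.Helper19.ES
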