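import Pool.Agent.Helper85.ES.StI2
import Pool.Agent.Helper47.EP.M_CFB

/-!
# Project ES, module ODE: decomposition by age
-/

set_option autoImplicit false

open MeasureTheory Set Filter Topology
open scoped ENNReal RealInnerProductSpace

namespace Pool.Agent.Helper19.ES

open Pool.Agent.Helper85.ES Pool.Agent.Helper20.RG Pool.Agent.Helper20.RL
open Pool.Agent.Helper68.EP (Fb DQ3 Par Dat Sy q0 q1 DD Fo Rs)
open Pool.Agent.Helper61.EP (Nn D8 trS dat Yc)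
open Pool.Agent.Helper68.ES (ag Eg th Rc hn Crit cr Lw)
open Pool.Agent.Helper68.LM (Pl BB Bd Av HL ft fm DQ)
open Pool.Agent.Helper2.RL (lap_ck_mono lap_bb_ind lap_bb_add lap_bb_indicator lap_loc lap_box)
open Pool.Agent.Helper47.EP (sq_dq ck_fb meas_fb)

/-- monotonicity and locality of `Y` -/
theorem ode_mono (hPT : Pool.Agent.Helper20.RG.StPT) (hMEA : Pool.Agent.Helper20.RG.StMEA)
    (hYB : Pool.Agent.Helper20.RG.StYB) {s : ℝ} (hs : |s| ≤ 1) {c : Pl} {R : ℝ} (hc : ‖c‖ ≤ R)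
    (m u : ℕ) (k : ℤ) (x : Pl) {f h : Pl → ℝ} (hf : BB f) (hh : BB h)
    (hle : ∀ y ∈ Sq x ((R + 3) * (2 : ℝ) ^ k), f y ≤ h y) :
    Y s c m (1 / (2 : ℝ) ^ u) k f x ≤ Y s c m (1 / (2 : ℝ) ^ u) k h x := by
  have hℓ : (0 : ℝ) < 1 / (2 : ℝ) ^ u := by positivity
  have h2k : (0 : ℝ) < (2 : ℝ) ^ k := zpow_pos (by norm_num) k
  have hR0 : 0 ≤ R := (norm_nonneg c).trans hc
  have hSm : MeasurableSet (Sq x ((R + 3) * (2 : ℝ) ^ k)) :=
    (hPT.2.2.2.2.2.2.2 x ((R + 3) * (2 : ℝ) ^ k) (by positivity)).1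
  have hHBB : BB (fun y => (-1) * f y + h y) := lap_bb_add (-1) hf hh
  have hYH : Y s c m (1 / (2 : ℝ) ^ u) k (fun y => (-1) * f y + h y) x =
      (-1) * Y s c m (1 / (2 : ℝ) ^ u) k f x + Y s c m (1 / (2 : ℝ) ^ u) k h x :=
    (hYB s c m _ k f hs hℓ hf).2.2.2.2 (-1) h hh x
  have hHS : ∀ y, 0 ≤ (Sq x ((R + 3) * (2 : ℝ) ^ k)).indicator (fun y => (-1) * f y + h y) y := by
    intro y
    by_cases hyS : y ∈ Sq x ((R + 3) * (2 : ℝ) ^ k)
    · rw [indicator_of_mem hyS]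
      have := hle y hyS
      show 0 ≤ (-1) * f y + h y
      linarith
    · rw [indicator_of_notMem hyS]
  have hY0 : 0 ≤ Y s c m (1 / (2 : ℝ) ^ u) k (fun y => (-1) * f y + h y) x := by
    rw [lap_loc hPT hMEA hs hc m u k x _]
    exact (hYB s c m _ k _ hs hℓ (lap_bb_indicator hSm hHBB)).2.2.1 hHS x
  rw [hYH] at hY0
  linarith

/-- additivity of `Y` -/
theorem ode_sum (hYB : Pool.Agent.Helper20.RG.StYB) {s : ℝ} (hs : |s| ≤ 1) (c : Pl)
    (m u : ℕ) (k : ℤ) (x : Pl) {f : Pl → ℝ} (hf : BB f) (g : ℕ → Pl → ℝ) (hg : ∀ i, BB (g i)) (n : ℕ) :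
    BB (fun y => f y + ∑ i ∈ Finset.range n, g i y) ∧
    Y s c m (1 / (2 : ℝ) ^ u) k (fun y => f y + ∑ i ∈ Finset.range n, g i y) x =
      Y s c m (1 / (2 : ℝ) ^ u) k f x +
        ∑ i ∈ Finset.range n, Y s c m (1 / (2 : ℝ) ^ u) k (g i) x := by
  have hℓ : (0 : ℝ) < 1 / (2 : ℝ) ^ u := by positivity
  induction n with
  | zero => simpa using hf
  | succ n ih =>
    have e : (fun y => f y + ∑ i ∈ Finset.range (n + 1), g i y) =
        fun y => 1 * g n y + (fun y => f y + ∑ i ∈ Finset.range n, g i y) y := by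
      funext y
      simp only [Finset.sum_range_succ]
      ring
    refine ⟨?_, ?_⟩
    · rw [e]; exact lap_bb_add 1 (hg n) ih.1
    · rw [e, (hYB s c m _ k (g n) hs hℓ (hg n)).2.2.2.2 1 _ ih.1 x, ih.2, Finset.sum_range_succ]
      ring

/-- the far part -/
theorem ode_far (hMEA : Pool.Agent.Helper20.RG.StMEA) {E : Set Pl} {D : ℝ} (hD : 0 < D) {Q m : ℕ}
    (hm : m ≤ 2 ^ Q) {s : ℝ} (hs : |s| ≤ 1) (c : Pl) (u : ℕ) (k : ℤ) (x : Pl)
    (hA : MeasurableSet (Fb E D (k - 2 ^ Q))) :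
    Y s c m (1 / (2 : ℝ) ^ u) k ((Fb E D (k - 2 ^ Q)).indicator 1) x ≤ D := by
  have hmZ : (m : ℤ) ≤ 2 ^ Q := by exact_mod_cast hm
  have hin : ∀ z : Pl, Av bx (2 * (2 : ℝ) ^ (k - (m : ℤ))) ((Fb E D (k - 2 ^ Q)).indicator 1) z ≤ D := by
    intro z
    have h2 : (0 : ℝ) < (2 : ℝ) ^ (k - (m : ℤ)) := zpow_pos (by norm_num) _
    refine lap_box _ hA z _ D (by positivity) hD.le ?_
    have e1 : 2 * (2 : ℝ) ^ (k - (m : ℤ)) / 2 = (2 : ℝ) ^ (k - (m : ℤ)) := by ring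
    rw [e1]
    by_cases hne : (Fb E D (k - 2 ^ Q) ∩ Sq z ((2 : ℝ) ^ (k - (m : ℤ)))).Nonempty
    · obtain ⟨z', ⟨hz1, hz2⟩, hz3, hz4⟩ := hne
      have e2 : (2 : ℝ) ^ (k - (m : ℤ) + 1) = 2 * (2 : ℝ) ^ (k - (m : ℤ)) := by
        rw [zpow_add_one₀ (by norm_num)]; ring
      have hsub : Fb E D (k - 2 ^ Q) ∩ Sq z ((2 : ℝ) ^ (k - (m : ℤ))) ⊆
          E ∩ DQ3 (k - (m : ℤ) + 1) z' := by
        rintro y ⟨hy1, hy2, hy3⟩
        refine ⟨hy1.1, sq_dq _ _ ⟨?_, ?_⟩⟩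
        · rw [e2]
          calc |y 0 - z' 0| = |(y 0 - z 0) - (z' 0 - z 0)| := by congr 1; ring
            _ ≤ |y 0 - z 0| + |z' 0 - z 0| := abs_sub _ _
            _ ≤ 2 * (2 : ℝ) ^ (k - (m : ℤ)) := by linarith
        · rw [e2]
          calc |y 1 - z' 1| = |(y 1 - z 1) - (z' 1 - z 1)| := by congr 1; ring
            _ ≤ |y 1 - z 1| + |z' 1 - z 1| := abs_sub _ _
            _ ≤ 2 * (2 : ℝ) ^ (k - (m : ℤ)) := by linarith
      refine (measure_mono hsub).trans ((hz2 (k - (m : ℤ) + 1) (by omega)).trans (le_of_eq ?_))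
      congr 2
      rw [← e2, ← zpow_natCast, ← zpow_mul, mul_comm, zpow_mul]
      norm_num
    · rw [not_nonempty_iff_eq_empty.1 hne, measure_empty]
      exact zero_le
  unfold Y
  have hnn : ∀ z : Pl, 0 ≤ Av bx (2 * (2 : ℝ) ^ (k - (m : ℤ))) ((Fb E D (k - 2 ^ Q)).indicator 1) z := by
    intro z
    exact integral_nonneg fun w => indicator_nonneg (fun _ _ => zero_le_one) _
  have hone := (hMEA.2.1 s hs).2
  have : IsProbabilityMeasure (sg s) := ⟨hone⟩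
  calc Av (sg s) ((2 : ℝ) ^ k * (1 / (2 : ℝ) ^ u))
        (Av bx (2 * (2 : ℝ) ^ (k - (m : ℤ))) ((Fb E D (k - 2 ^ Q)).indicator 1)) (x - (2 : ℝ) ^ k • c)
      ≤ ∫ _y, D ∂(sg s) := by
        unfold Av
        refine integral_mono_of_nonneg (Eventually.of_forall fun y => hnn _) (integrable_const D)
          (Eventually.of_forall fun y => hin _)
    _ = D := by simp

/-- the age levels -/
theorem ode_age {E : Set Pl} {D : ℝ} {Q : ℕ} (hQ : 1 ≤ Q) {k : ℤ} {z : Pl}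
    (h1 : z ∈ Fb E D k) (h2 : z ∉ Fb E D (k - 2 ^ Q)) :
    ∃ q ∈ Finset.range Q, z ∈ Eg E D q k := by
  classical
  have hex : ∃ a : ℕ, z ∉ Fb E D (k - ag a) := ⟨Q, by
    have : ag Q = 2 ^ Q := by unfold ag; rw [if_neg (by omega)]
    rw [this]; exact h2⟩
  have hα1 : z ∉ Fb E D (k - ag (Nat.find hex)) := Nat.find_spec hex
  have hα2 : Nat.find hex ≤ Q := Nat.find_min' hex (by
    have : ag Q = 2 ^ Q := by unfold ag; rw [if_neg (by omega)]
    rw [this]; exact h2)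
  have h0 : Nat.find hex ≠ 0 := by
    intro h0
    rw [h0] at hα1
    apply hα1
    have : ag 0 = 0 := by unfold ag; simp
    rw [this, sub_zero]
    exact h1
  obtain ⟨q, hq⟩ := Nat.exists_eq_succ_of_ne_zero h0
  have hα3 : z ∈ Fb E D (k - ag q) := by
    have h3 := Nat.find_min hex (m := q) (by omega)
    rwa [not_not] at h3
  refine ⟨q, by rw [Finset.mem_range]; omega, hα3, ?_⟩
  rw [hq] at hα1
  have : ag (Nat.succ q) = 2 ^ (q + 1) := by
    unfold ag; rw [if_neg (Nat.succ_ne_zero q)]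
  rwa [this] at hα1

/-- Module ODE. -/
theorem hODE (hPT : Pool.Agent.Helper20.RG.StPT) (hMEA : Pool.Agent.Helper20.RG.StMEA)
    (hYB : Pool.Agent.Helper20.RG.StYB) (_hLAM : Pool.Agent.Helper20.RL.StLAM)
    (_hEFB : Pool.Agent.Helper68.EP.StEFB) (_hCFB : Pool.Agent.Helper61.EP.StCFB)
    (_hOEG : Pool.Agent.Helper85.ES.StOEG) : Pool.Agent.Helper85.ES.StODE := by
  intro E D R Cf Q s c m u x k hE hD hs hc _hu hQ hR hLoc
  have h2k : (0 : ℝ) < (2 : ℝ) ^ k := zpow_pos (by norm_num) k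
  have hR0 : 0 ≤ R := (norm_nonneg c).trans hc
  have hBMfb : ∀ b : ℤ, BM (Fb E D b) := fun b => ⟨meas_fb hE.1 D b, hE.2.subset fun z hz => hz.1⟩
  have hBMeg : ∀ q : ℕ, BM (Eg E D q k) := fun q =>
    ⟨(hBMfb _).1.diff (hBMfb _).1, hE.2.subset fun z hz => hz.1.1⟩
  -- the pointwise bound on the square
  have hpt : ∀ z ∈ E ∩ Sq x ((R + 3) * (2 : ℝ) ^ k), z ∈ Fb E D k := by
    rintro z ⟨hzE, hz0, hz1⟩
    have hck : z ∈ Ck E (D / 4) k := by
      refine ⟨hzE, fun k' hk' => ?_⟩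
      have h2k' : (0 : ℝ) < (2 : ℝ) ^ k' := zpow_pos (by norm_num) k'
      have hkk : (2 : ℝ) ^ k ≤ (2 : ℝ) ^ k' := zpow_le_zpow_right₀ (by norm_num) hk'
      have hsub : E ∩ Sq z ((2 : ℝ) ^ k') ⊆ E ∩ Sq x (Cf * (2 : ℝ) ^ k') := by
        rintro y ⟨hyE, hy0, hy1⟩
        have hb : (R + 3) * (2 : ℝ) ^ k + (2 : ℝ) ^ k' ≤ Cf * (2 : ℝ) ^ k' := by
          have e1 : (R + 3) * (2 : ℝ) ^ k ≤ (R + 3) * (2 : ℝ) ^ k' := by gcongr
          have e2 : (R + 10) * (2 : ℝ) ^ k' ≤ Cf * (2 : ℝ) ^ k' := by gcongr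
          nlinarith
        refine ⟨hyE, ?_, ?_⟩
        · calc |y 0 - x 0| = |(y 0 - z 0) + (z 0 - x 0)| := by congr 1; ring
            _ ≤ |y 0 - z 0| + |z 0 - x 0| := abs_add_le _ _
            _ ≤ Cf * (2 : ℝ) ^ k' := by linarith
        · calc |y 1 - x 1| = |(y 1 - z 1) + (z 1 - x 1)| := by congr 1; ring
            _ ≤ |y 1 - z 1| + |z 1 - x 1| := abs_add_le _ _
            _ ≤ Cf * (2 : ℝ) ^ k' := by linarith
      have hint : ∫⁻ y in Sq x (Cf * (2 : ℝ) ^ k'), ‖E.indicator (1 : Pl → ℝ) y‖ₑ =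
          volume (E ∩ Sq x (Cf * (2 : ℝ) ^ k')) := by
        have e1 : ∀ y : Pl, ‖E.indicator (1 : Pl → ℝ) y‖ₑ =
            E.indicator (fun _ => (1 : ℝ≥0∞)) y := by
          intro y
          by_cases hy : y ∈ E
          · simp [hy]
          · simp [hy]
        simp_rw [e1]
        rw [lintegral_indicator_const hE.1, one_mul, Measure.restrict_apply hE.1]
      calc volume (E ∩ Sq z ((2 : ℝ) ^ k')) ≤ volume (E ∩ Sq x (Cf * (2 : ℝ) ^ k')) :=
            measure_mono hsub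
        _ = ∫⁻ y in Sq x (Cf * (2 : ℝ) ^ k'), ‖E.indicator (1 : Pl → ℝ) y‖ₑ := hint.symm
        _ ≤ ENNReal.ofReal (D / 4 * (4 : ℝ) ^ k') := hLoc k'
    have h5 := ck_fb E (D / 4) k hck
    rwa [show 4 * (D / 4) = D by ring] at h5
  have hgBB : ∀ i, BB ((Eg E D i k).indicator (1 : Pl → ℝ)) := fun i => lap_bb_ind (hBMeg i)
  have hg0 : ∀ i y, 0 ≤ (Eg E D i k).indicator (1 : Pl → ℝ) y :=
    fun i y => indicator_nonneg (fun _ _ => zero_le_one) _
  have hcov : ∀ y ∈ Sq x ((R + 3) * (2 : ℝ) ^ k), y ∈ E → y ∉ Fb E D (k - 2 ^ Q) →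
      1 ≤ ∑ q ∈ Finset.range Q, (Eg E D q k).indicator (1 : Pl → ℝ) y := by
    intro y hyS hyE hyf
    obtain ⟨i, hi, hyi⟩ := ode_age hQ (hpt y ⟨hyE, hyS⟩) hyf
    have h3 : (Eg E D i k).indicator (1 : Pl → ℝ) y ≤
        ∑ q ∈ Finset.range Q, (Eg E D q k).indicator (1 : Pl → ℝ) y :=
      Finset.single_le_sum (f := fun q => (Eg E D q k).indicator (1 : Pl → ℝ) y)
        (fun j _ => hg0 j y) hi
    have h4 : (Eg E D i k).indicator (1 : Pl → ℝ) y = 1 := indicator_of_mem hyi _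
    linarith
  constructor
  · intro hm
    have hfar := ode_far hMEA hD hm hs c u k x (hBMfb (k - 2 ^ Q)).1
    have hs1 := ode_sum hYB hs c m u k x (lap_bb_ind (hBMfb (k - 2 ^ Q)))
      (fun q => (Eg E D q k).indicator (1 : Pl → ℝ)) hgBB Q
    have hle := ode_mono hPT hMEA hYB hs hc m u k x (lap_bb_ind hE) hs1.1 (by
      intro y hyS
      have hsum0 : 0 ≤ ∑ q ∈ Finset.range Q, (Eg E D q k).indicator (1 : Pl → ℝ) y :=
        Finset.sum_nonneg fun i _ => hg0 i y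
      by_cases hyE : y ∈ E
      · rw [indicator_of_mem hyE]
        by_cases hyf : y ∈ Fb E D (k - 2 ^ Q)
        · show (1 : ℝ) ≤ (Fb E D (k - 2 ^ Q)).indicator 1 y +
            ∑ q ∈ Finset.range Q, (Eg E D q k).indicator (1 : Pl → ℝ) y
          rw [indicator_of_mem hyf]
          simp only [Pi.one_apply]
          linarith
        · show (1 : ℝ) ≤ (Fb E D (k - 2 ^ Q)).indicator 1 y +
            ∑ q ∈ Finset.range Q, (Eg E D q k).indicator (1 : Pl → ℝ) y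
          rw [indicator_of_notMem hyf]
          have := hcov y hyS hyE hyf
          linarith
      · rw [indicator_of_notMem hyE]
        have hf0 : 0 ≤ (Fb E D (k - 2 ^ Q)).indicator (1 : Pl → ℝ) y :=
          indicator_nonneg (fun _ _ => zero_le_one) _
        show (0 : ℝ) ≤ (Fb E D (k - 2 ^ Q)).indicator 1 y +
            ∑ q ∈ Finset.range Q, (Eg E D q k).indicator (1 : Pl → ℝ) y
        linarith)
    rw [hs1.2] at hle
    linarith
  · have hX : BM (E \ Fb E D (k - 2 ^ Q)) :=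
      ⟨hE.1.diff (hBMfb _).1, hE.2.subset sdiff_subset⟩
    have hemp : BB ((∅ : Set Pl).indicator (1 : Pl → ℝ)) :=
      lap_bb_ind ⟨MeasurableSet.empty, Bornology.isBounded_empty⟩
    have hs1 := ode_sum hYB hs c m u k x hemp
      (fun q => (Eg E D q k).indicator (1 : Pl → ℝ)) hgBB Q
    have hle := ode_mono hPT hMEA hYB hs hc m u k x (lap_bb_ind hX) hs1.1 (by
      intro y hyS
      have hsum0 : 0 ≤ ∑ q ∈ Finset.range Q, (Eg E D q k).indicator (1 : Pl → ℝ) y :=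
        Finset.sum_nonneg fun i _ => hg0 i y
      show (E \ Fb E D (k - 2 ^ Q)).indicator (1 : Pl → ℝ) y ≤ (∅ : Set Pl).indicator 1 y +
            ∑ q ∈ Finset.range Q, (Eg E D q k).indicator (1 : Pl → ℝ) y
      rw [indicator_empty]
      by_cases hyX : y ∈ E \ Fb E D (k - 2 ^ Q)
      · rw [indicator_of_mem hyX]
        have := hcov y hyS hyX.1 hyX.2
        simp only [Pi.one_apply]
        linarith
      · rw [indicator_of_notMem hyX]
        linarith)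
    rw [hs1.2] at hle
    have hz : Y s c m (1 / (2 : ℝ) ^ u) k ((∅ : Set Pl).indicator 1) x = 0 := by
      simp [Y, Av]
    rw [hz] at hle
    linarith

end Pool.Agent.Helper19.ES
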